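import Pool.Agent.R57.CircCube

/-!
# A connected non-bipartite graph whose circular mixing threshold is not attained

Let `H` be the cube, drawn as `K_{4,4}` minus a perfect matching, and let `G` be obtained from `H`
by adding one new vertex adjacent to both ends of one edge of `H`.  Then `G` is `(k,q)`-mixing
for all `k > 4q`, but not `4`-mixing; so its circular mixing threshold is `4` and it is not attained.
-/

namespace Pool.Agent.Results.MP_067019_co.ThresholdNotAttained

open Pool.Agent.R57.CircMix Relation

/-- The cube with one extra vertex (`none`), adjacent to the two ends `(false, 0)`, `(true, 1)` of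
an edge of the cube. -/
def G : SimpleGraph (Option (Bool × Fin 4)) := addVertex cube (false, 0) (true, 1)

theorem adj_cube : cube.Adj (false, 0) (true, 1) := ⟨by decide, by decide⟩

theorem mixing {k q : ℕ} (hq : 0 < q) (hk : 4 * q < k) : Mixing G k q := by
  have hq' : (0 : ℤ) < q := by exact_mod_cast hq
  have hk' : 4 * (q : ℤ) < k := by exact_mod_cast hk
  refine mixing_of_reach (by omega) hq (ext (cst 0 q) (2 * q)) ?_
  intro F hF
  have e : F = ext (fun x => F (some x)) (F none) := by
    funext x
    match x with
    | some a => rfl
    | none => rfl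
  rw [e] at hF ⊢
  have h1 := val_of_ext hF
  have h2 := cube_reach hq' hk' h1.1
  refine reach_add adj_cube hq' (by omega) h1.1 h2 hF ?_
  refine val_ext hq' (val_cst hq' ?_) ?_ ?_
  · exact ok_symm hq' (ok_of hq' (by omega) (by omega))
  · change ok k q (2 * q) 0
    exact ok_of hq' (by omega) (by omega)
  · change ok k q (2 * q) q
    exact ok_of hq' (by omega) (by omega)

/-- The frozen colouring. -/
def frozen : Option (Bool × Fin 4) → ℕ
  | some x => x.2.val
  | none => 2

/-- Another colouring. -/
def other : Option (Bool × Fin 4) → ℕ
  | some x => bif x.1 then 1 else 0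
  | none => 2

theorem isCol_of_ne {V : Type} {H : SimpleGraph V} {f : V → ℕ} (h1 : ∀ v, f v < 4)
    (h2 : ∀ u v, H.Adj u v → f u ≠ f v) : IsCol H 4 1 f := by
  refine ⟨h1, fun u v huv => ?_⟩
  have a1 := h1 u
  have a2 := h1 v
  have a3 := h2 u v huv
  constructor
  · have : (f u : ℤ) - f v ≠ 0 := by omega
    have := abs_pos.mpr this
    push_cast
    omega
  · rw [abs_le]
    push_cast
    omega

theorem col_frozen : IsCol G 4 1 frozen := by
  apply isCol_of_ne
  · intro v
    match v with
    | some x => exact x.2.isLt
    | none => decide
  · intro u v huv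
    match u, v, huv with
    | some x, some y, h => exact fun e => h.2 (Fin.ext e)
    | none, some y, h =>
      rcases h with rfl | rfl <;> decide
    | some x, none, h =>
      rcases h with rfl | rfl <;> decide

theorem col_other : IsCol G 4 1 other := by
  apply isCol_of_ne
  · intro v
    match v with
    | some (false, _) => exact (by decide : 0 < 4)
    | some (true, _) => exact (by decide : 1 < 4)
    | none => decide
  · intro u v huv
    match u, v, huv with
    | some (false, _), some (false, _), h => exact absurd rfl h.1
    | some (true, _), some (true, _), h => exact absurd rfl h.1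
    | some (false, _), some (true, _), _ => exact Nat.zero_ne_one
    | some (true, _), some (false, _), _ => exact Nat.one_ne_zero
    | none, some y, h =>
      rcases h with rfl | rfl <;> decide
    | some x, none, h =>
      rcases h with rfl | rfl <;> decide

theorem step_frozen {f g : Option (Bool × Fin 4) → ℕ} (h : Step G 4 1 f g)
    (hf : ∀ x : Bool × Fin 4, f (some x) = x.2.val) : ∀ x : Bool × Fin 4, g (some x) = x.2.val := by
  obtain ⟨_, h2, v, h3, h4⟩ := h
  intro x
  by_cases hx : some x = v
  · subst hx
    exfalso
    apply h3
    have hne : ∀ j : Fin 4, j ≠ x.2 → g (some x) ≠ j.val := by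
      intro j hj e
      have hadj : G.Adj (some x) (some (!x.1, j)) := by
        refine ⟨?_, fun e => hj e.symm⟩
        intro e
        cases h0 : x.1 <;> simp [h0] at e
      have h5 := (h2.2 _ _ hadj).1
      have h6 : g (some (!x.1, j)) = j.val := by
        rw [← h4 _ (fun e => ?_)]
        · exact hf _
        · have e2 := congrArg Prod.fst (Option.some.inj e)
          cases h0 : x.1 <;> simp [h0] at e2
      rw [e, h6] at h5
      simp at h5
    have hlt := h2.1 (some x)
    have h7 : (⟨g (some x), hlt⟩ : Fin 4) = x.2 := by
      by_contra h8
      exact hne _ h8 rfl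
    rw [hf x, ← h7]
  · rw [← h4 _ hx]
    exact hf x

theorem not_mixing : ¬ Mixing G 4 1 := by
  intro h
  have h1 := h frozen other col_frozen col_other
  have key : ∀ g, ReflTransGen (Step G 4 1) frozen g →
      ∀ x : Bool × Fin 4, g (some x) = x.2.val := by
    intro g hg
    induction hg with
    | refl => intro x; rfl
    | tail _ h2 ih => exact step_frozen h2 ih
  have h2 := key other h1 (false, 1)
  exact absurd h2 (by decide)

theorem mem_R {r : ℚ} : r ∈ R G ↔ 4 < r := by
  constructor
  · intro h
    by_contra h4
    push Not at h4
    exact not_mixing (h 4 1 (by norm_num) (by norm_num) (by norm_num; exact h4))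
  · intro h k q hk hq hr
    apply mixing hq
    have hq' : (0 : ℚ) < q := by exact_mod_cast hq
    have h5 : (4 : ℚ) < k / q := lt_of_lt_of_le h hr
    rw [lt_div_iff₀ hq'] at h5
    exact_mod_cast h5

theorem mc_eq : mc G = 4 := by
  unfold mc
  have hglb : IsGLB ((fun r : ℚ => (r : ℝ)) '' R G) 4 := by
    constructor
    · rintro _ ⟨r, hr, rfl⟩
      have := mem_R.mp hr
      have h2 : (4 : ℝ) < r := by exact_mod_cast this
      exact h2.le
    · intro b hb
      by_contra h
      push Not at h
      obtain ⟨r, h1, h2⟩ := exists_rat_btwn h
      have hr : (4 : ℚ) < r := by exact_mod_cast h1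
      have := hb ⟨r, mem_R.mpr hr, rfl⟩
      simp only at this
      linarith
  exact hglb.csInf_eq ⟨((5 : ℚ) : ℝ), 5, mem_R.mpr (by norm_num), rfl⟩

theorem not_attained : ¬ Attained G := by
  rintro ⟨r, hr, h⟩
  rw [mc_eq] at h
  have h1 := mem_R.mp hr
  have h2 : r = 4 := by exact_mod_cast h
  rw [h2] at h1
  exact lt_irrefl _ h1

theorem connected : G.Connected := by
  rw [SimpleGraph.connected_iff_exists_forall_reachable]
  refine ⟨none, ?_⟩
  have r0 : G.Reachable none (some (false, 0)) :=
    SimpleGraph.Adj.reachable (Or.inl rfl : G.Adj none (some (false, 0)))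
  have r1 : G.Reachable none (some (true, 1)) :=
    SimpleGraph.Adj.reachable (Or.inr rfl : G.Adj none (some (true, 1)))
  have st : ∀ (s t : Bool) (i j : Fin 4), s ≠ t → i ≠ j →
      G.Reachable none (some (s, i)) → G.Reachable none (some (t, j)) := by
    intro s t i j h1 h2 h3
    exact h3.trans (SimpleGraph.Adj.reachable (⟨h1, h2⟩ : G.Adj (some (s, i)) (some (t, j))))
  have r2 := st false true 0 2 (by decide) (by decide) r0
  have r3 := st false true 0 3 (by decide) (by decide) r0
  have f2 := st true false 1 2 (by decide) (by decide) r1
  have f3 := st true false 1 3 (by decide) (by decide) r1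
  have f1 := st true false 2 1 (by decide) (by decide) r2
  have t0 := st false true 1 0 (by decide) (by decide) f1
  intro w
  match w with
  | none => exact SimpleGraph.Reachable.refl _
  | some (false, i) =>
    fin_cases i
    · exact r0
    · exact f1
    · exact f2
    · exact f3
  | some (true, i) =>
    fin_cases i
    · exact t0
    · exact r1
    · exact r2
    · exact r3

theorem not_two_colorable : ¬ G.Colorable 2 := by
  rintro ⟨c⟩
  have h1 : c none ≠ c (some (false, 0)) :=
    c.valid (Or.inl rfl : G.Adj none (some (false, 0)))
  have h2 : c none ≠ c (some (true, 1)) :=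
    c.valid (Or.inr rfl : G.Adj none (some (true, 1)))
  have h3 : c (some (false, 0)) ≠ c (some (true, 1)) :=
    c.valid (adj_cube : G.Adj (some (false, 0)) (some (true, 1)))
  omega

/-- The connected, non-bipartite graph `G` on nine vertices has circular mixing threshold `4`, and
this threshold is not attained: `G` is `(k,q)`-mixing whenever `k/q > 4`, but it is not
`(4,1)`-mixing. -/
theorem result : G.Connected ∧ ¬ G.Colorable 2 ∧ mc G = 4 ∧ ¬ Attained G :=
  ⟨connected, not_two_colorable, mc_eq, not_attained⟩

end Pool.Agent.Results.MP_067019_co.ThresholdNotAttained
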